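import Pool.Agent.helper60.DB.SpecF

/-!
# Row bf:CD (MP_fb2c2a_nt): isogenies of degree 3 and 5
-/

namespace Pool.Agent.helper60.DB

open Polynomial Finset Pool.Agent.helper60.DK

theorem CD_1 (R : Type) [CommRing R] (u v : R) (hu : u ^ 2 = 5) (hv : v ^ 2 = -3) :
    OI (6 * (16 + 7 * u)) (-3) (-6 * (16 - 7 * u)) (-3) (v * (2 + u)) (C (v * (2 + u)) - C v * X)
    (1 + C (3 * (2 + u)) * X) (1 - C (6 * u) * X - C 3 * X ^ 2) := by
  have hU : (C u : R[X]) ^ 2 = 5 := by rw [← C_pow, hu, map_ofNat]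
  have hV : (C v : R[X]) ^ 2 = -3 := by rw [← C_pow, hv, map_neg, map_ofNat]
  refine ⟨?_, ?_, ?_, ?_, ?_⟩
  · simp
  · simp
  · simp
  · simp only [map_add, map_sub, map_mul, map_neg, map_ofNat, derivative_C, derivative_mul,
      derivative_X, derivative_X_pow, derivative_one, derivative_ofNat, Nat.cast_ofNat,
      Nat.add_one_sub_one]
    linear_combination (
      3 * C v * X) * hU + (
      0) * hV
  · simp only [map_add, map_sub, map_mul, map_neg, map_ofNat]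
    linear_combination (
      -378 * C u ^ 3 * C v ^ 2 * X ^ 3 + 3 * C u ^ 2 * C v ^ 4 * X ^ 2 + 756 * C u ^ 2 * C v ^ 2 *
        X ^ 4 - 2160 * C u ^ 2 * C v ^ 2 * X ^ 3 - 252 * C u ^ 2 * C v ^ 2 * X ^ 2 - 81 * C u ^
        2 * X ^ 4 - 12 * C u * C v ^ 4 * X ^ 3 + 24 * C u * C v ^ 4 * X ^ 2 - 378 * C u * C v ^
        2 * X ^ 5 + 2808 * C u * C v ^ 2 * X ^ 4 - 3546 * C u * C v ^ 2 * X ^ 3 - 936 * C u * C
        v ^ 2 * X ^ 2 - 42 * C u * C v ^ 2 * X - 648 * C u * X ^ 4 + 1404 * C u * X ^ 3 + 18 * C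
        v ^ 4 * X ^ 4 - 72 * C v ^ 4 * X ^ 3 + 87 * C v ^ 4 * X ^ 2 - 648 * C v ^ 2 * X ^ 5 +
        2232 * C v ^ 2 * X ^ 4 - 1296 * C v ^ 2 * X ^ 3 - 744 * C v ^ 2 * X ^ 2 - 72 * C v ^ 2 *
        X - 945 * X ^ 4 + 2808 * X ^ 3 - 522 * X ^ 2) * hU + (
      -12 * C u * C v ^ 2 * X ^ 5 + 72 * C u * C v ^ 2 * X ^ 4 - 204 * C u * C v ^ 2 * X ^ 3 +
        216 * C u * C v ^ 2 * X ^ 2 + 90 * C u * X ^ 5 - 792 * C u * X ^ 4 + 1848 * C u * X ^ 3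
        - 456 * C u * X ^ 2 + 6 * C u * X + 3 * C v ^ 2 * X ^ 6 - 24 * C v ^ 2 * X ^ 5 + 162 * C
        v ^ 2 * X ^ 4 - 456 * C v ^ 2 * X ^ 3 + 483 * C v ^ 2 * X ^ 2 - 9 * X ^ 6 + 288 * X ^ 5
        - 1998 * X ^ 4 + 4200 * X ^ 3 - 945 * X ^ 2 + 24 * X) * hV

theorem CD_2 (R : Type) [CommRing R] (u v : R) (hu : u ^ 2 = 5) (hv : v ^ 2 = -3) :
    OI (6 * (16 + 7 * u)) (-3) (-6 * (16 - 7 * u)) (-3) (5 + 2 * u)
    (C (5 + 2 * u) - C (6 * (5 + 2 * u)) * X + C 3 * X ^ 2)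
    (1 + C (6 * (5 + 2 * u)) * X + C (3 * (5 + 2 * u)) * X ^ 2)
    (1 - C (48 + 12 * u) * X - C (210 + 96 * u) * X ^ 2 + C (144 + 36 * u) * X ^ 3 + C 9 * X ^ 4) := by
  have hU : (C u : R[X]) ^ 2 = 5 := by rw [← C_pow, hu, map_ofNat]
  have hV : (C v : R[X]) ^ 2 = -3 := by rw [← C_pow, hv, map_neg, map_ofNat]
  refine ⟨?_, ?_, ?_, ?_, ?_⟩
  · simp
  · simp
  · simp
  · simp only [map_add, map_sub, map_mul, map_neg, map_ofNat, derivative_C, derivative_mul,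
      derivative_X, derivative_X_pow, derivative_one, derivative_ofNat, Nat.cast_ofNat,
      Nat.add_one_sub_one]
    linear_combination (
      12 * X ^ 2) * hU + (
      0) * hV
  · simp only [map_add, map_sub, map_mul, map_neg, map_ofNat]
    linear_combination (
      -217728 * C u ^ 3 * X ^ 7 - 798336 * C u ^ 3 * X ^ 6 - 586656 * C u ^ 3 * X ^ 5 + 266112 *
        C u ^ 3 * X ^ 4 - 24192 * C u ^ 3 * X ^ 3 + 107568 * C u ^ 2 * X ^ 8 - 1272672 * C u ^ 2 *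
        X ^ 7 - 5764608 * C u ^ 2 * X ^ 6 - 4753728 * C u ^ 2 * X ^ 5 + 1921536 * C u ^ 2 * X ^
        4 - 141408 * C u ^ 2 * X ^ 3 - 3984 * C u ^ 2 * X ^ 2 - 13608 * C u * X ^ 9 + 500256 * C
        u * X ^ 8 - 2266704 * C u * X ^ 7 - 13702176 * C u * X ^ 6 - 12702960 * C u * X ^ 5 +
        4567392 * C u * X ^ 4 - 251856 * C u * X ^ 3 - 18528 * C u * X ^ 2 - 168 * C u * X -
        36936 * X ^ 9 + 563112 * X ^ 8 - 1145664 * X ^ 7 - 10716408 * X ^ 6 - 11199600 * X ^ 5 +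
        3572136 * X ^ 4 - 127296 * X ^ 3 - 20856 * X ^ 2 - 456 * X) * hU + (
      0) * hV

theorem CD_3 (R : Type) [CommRing R] (u v : R) (hu : u ^ 2 = 5) (hv : v ^ 2 = -3) :
    OI (-6 * (16 - 7 * u)) (-3) (6 * (16 + 7 * u)) (-3) (v * (2 - u)) (C (v * (2 - u)) + C v * X)
    (1 - C (3 * (2 - u)) * X) (1 - C (6 * u) * X - C 3 * X ^ 2) := by
  have hU : (C u : R[X]) ^ 2 = 5 := by rw [← C_pow, hu, map_ofNat]
  have hV : (C v : R[X]) ^ 2 = -3 := by rw [← C_pow, hv, map_neg, map_ofNat]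
  refine ⟨?_, ?_, ?_, ?_, ?_⟩
  · simp
  · simp
  · simp
  · simp only [map_add, map_sub, map_mul, map_neg, map_ofNat, derivative_C, derivative_mul,
      derivative_X, derivative_X_pow, derivative_one, derivative_ofNat, Nat.cast_ofNat,
      Nat.add_one_sub_one]
    linear_combination (
      -3 * C v * X) * hU + (
      0) * hV
  · simp only [map_add, map_sub, map_mul, map_neg, map_ofNat]
    linear_combination (
      -378 * C u ^ 3 * C v ^ 2 * X ^ 3 + 3 * C u ^ 2 * C v ^ 4 * X ^ 2 + 756 * C u ^ 2 * C v ^ 2 *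
        X ^ 4 + 2160 * C u ^ 2 * C v ^ 2 * X ^ 3 - 252 * C u ^ 2 * C v ^ 2 * X ^ 2 - 81 * C u ^
        2 * X ^ 4 - 12 * C u * C v ^ 4 * X ^ 3 - 24 * C u * C v ^ 4 * X ^ 2 - 378 * C u * C v ^
        2 * X ^ 5 - 2808 * C u * C v ^ 2 * X ^ 4 - 3546 * C u * C v ^ 2 * X ^ 3 + 936 * C u * C
        v ^ 2 * X ^ 2 - 42 * C u * C v ^ 2 * X + 648 * C u * X ^ 4 + 1404 * C u * X ^ 3 + 18 * C
        v ^ 4 * X ^ 4 + 72 * C v ^ 4 * X ^ 3 + 87 * C v ^ 4 * X ^ 2 + 648 * C v ^ 2 * X ^ 5 +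
        2232 * C v ^ 2 * X ^ 4 + 1296 * C v ^ 2 * X ^ 3 - 744 * C v ^ 2 * X ^ 2 + 72 * C v ^ 2 *
        X - 945 * X ^ 4 - 2808 * X ^ 3 - 522 * X ^ 2) * hU + (
      -12 * C u * C v ^ 2 * X ^ 5 - 72 * C u * C v ^ 2 * X ^ 4 - 204 * C u * C v ^ 2 * X ^ 3 -
        216 * C u * C v ^ 2 * X ^ 2 + 90 * C u * X ^ 5 + 792 * C u * X ^ 4 + 1848 * C u * X ^ 3
        + 456 * C u * X ^ 2 + 6 * C u * X + 3 * C v ^ 2 * X ^ 6 + 24 * C v ^ 2 * X ^ 5 + 162 * C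
        v ^ 2 * X ^ 4 + 456 * C v ^ 2 * X ^ 3 + 483 * C v ^ 2 * X ^ 2 - 9 * X ^ 6 - 288 * X ^ 5
        - 1998 * X ^ 4 - 4200 * X ^ 3 - 945 * X ^ 2 - 24 * X) * hV

theorem CD_4 (R : Type) [CommRing R] (u v : R) (hu : u ^ 2 = 5) (hv : v ^ 2 = -3) :
    OI (-6 * (16 - 7 * u)) (-3) (6 * (16 + 7 * u)) (-3) (5 - 2 * u)
    (C (5 - 2 * u) + C (6 * (5 - 2 * u)) * X + C 3 * X ^ 2)
    (1 - C (6 * (5 - 2 * u)) * X + C (3 * (5 - 2 * u)) * X ^ 2)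
    (1 + C (48 - 12 * u) * X - C (210 - 96 * u) * X ^ 2 - C (144 - 36 * u) * X ^ 3 + C 9 * X ^ 4) := by
  have hU : (C u : R[X]) ^ 2 = 5 := by rw [← C_pow, hu, map_ofNat]
  have hV : (C v : R[X]) ^ 2 = -3 := by rw [← C_pow, hv, map_neg, map_ofNat]
  refine ⟨?_, ?_, ?_, ?_, ?_⟩
  · simp
  · simp
  · simp
  · simp only [map_add, map_sub, map_mul, map_neg, map_ofNat, derivative_C, derivative_mul,
      derivative_X, derivative_X_pow, derivative_one, derivative_ofNat, Nat.cast_ofNat,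
      Nat.add_one_sub_one]
    linear_combination (
      12 * X ^ 2) * hU + (
      0) * hV
  · simp only [map_add, map_sub, map_mul, map_neg, map_ofNat]
    linear_combination (
      -217728 * C u ^ 3 * X ^ 7 + 798336 * C u ^ 3 * X ^ 6 - 586656 * C u ^ 3 * X ^ 5 - 266112 *
        C u ^ 3 * X ^ 4 - 24192 * C u ^ 3 * X ^ 3 + 107568 * C u ^ 2 * X ^ 8 + 1272672 * C u ^ 2 *
        X ^ 7 - 5764608 * C u ^ 2 * X ^ 6 + 4753728 * C u ^ 2 * X ^ 5 + 1921536 * C u ^ 2 * X ^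
        4 + 141408 * C u ^ 2 * X ^ 3 - 3984 * C u ^ 2 * X ^ 2 - 13608 * C u * X ^ 9 - 500256 * C
        u * X ^ 8 - 2266704 * C u * X ^ 7 + 13702176 * C u * X ^ 6 - 12702960 * C u * X ^ 5 -
        4567392 * C u * X ^ 4 - 251856 * C u * X ^ 3 + 18528 * C u * X ^ 2 - 168 * C u * X +
        36936 * X ^ 9 + 563112 * X ^ 8 + 1145664 * X ^ 7 - 10716408 * X ^ 6 + 11199600 * X ^ 5 +
        3572136 * X ^ 4 + 127296 * X ^ 3 - 20856 * X ^ 2 + 456 * X) * hU + (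
      0) * hV

theorem CD : CD_stmt := fun R _ u v hu hv =>
  ⟨CD_1 R u v hu hv, CD_2 R u v hu hv, CD_3 R u v hu hv, CD_4 R u v hu hv⟩

end Pool.Agent.helper60.DB
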