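import Pool.Agent.helper60.DB.SpecF

/-!
# Row bf:CH (MP_fb2c2a_nt)
-/

namespace Pool.Agent.helper60.DB

open Polynomial Finset Pool.Agent.helper60.DK

theorem CH_ndvd (p : ℕ) (hp : p.Prime) (h7 : 7 ≤ p) (h11 : p ≠ 11) :
    ¬ (p : ℤ) ∣ 396 ∧ ¬ (p : ℤ) ∣ 589824 ∧ ¬ (p : ℤ) ∣ -3 := by
  have h2 : ¬ p ∣ 2 := fun h => by
    have := Nat.le_of_dvd (by norm_num) h
    omega
  have h3 : ¬ p ∣ 3 := fun h => by
    have := Nat.le_of_dvd (by norm_num) h
    omega
  have h11' : ¬ p ∣ 11 := fun h => h11 ((Nat.prime_dvd_prime_iff_eq hp (by norm_num)).1 h)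
  refine ⟨fun h => ?_, fun h => ?_, fun h => ?_⟩
  · have h' : p ∣ 2 ^ 2 * 3 ^ 2 * 11 := by exact_mod_cast h
    rcases hp.dvd_mul.1 h' with h1 | h1
    · rcases hp.dvd_mul.1 h1 with h4 | h4
      · exact h2 (hp.dvd_of_dvd_pow h4)
      · exact h3 (hp.dvd_of_dvd_pow h4)
    · exact h11' h1
  · have h' : p ∣ 2 ^ 16 * 3 ^ 2 := by exact_mod_cast h
    rcases hp.dvd_mul.1 h' with h4 | h4
    · exact h2 (hp.dvd_of_dvd_pow h4)
    · exact h3 (hp.dvd_of_dvd_pow h4)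
  · rw [Int.dvd_neg] at h
    exact h3 (by exact_mod_cast h)

theorem CH (hIZ : IZ_stmt) (hPC : PC_stmt) (hCE : CE_stmt) : CH_stmt := by
  intro R k _ _ _ _ p m _ _ q hL h7 h11 hm u v a b y w hu hv hqu hY hw hab hq
  have hp : p.Prime := Fact.out
  obtain ⟨n1, n2, n3⟩ := CH_ndvd p hp h7 h11
  obtain ⟨hiz, -⟩ := hIZ R k p q hL
  obtain ⟨c1, -, -, -, c5, -, -⟩ := hCE R u v y hu hv hY
  have hB : (((-3 : ℤ)) : R) = -3 := by norm_num
  have h := hPC R k p m q hL (by omega) hm (6 * (16 + 7 * u)) (u * v) (-3) 15 1 a b y w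
  rw [hB] at h
  refine h hY hw n3 ?_ (by norm_num) ?_ c5 c1 ?_ ?_ hq ?_ ?_
  · intro h0
    have h1 := (hiz 589824).not.2 n2
    apply h1
    have h2 : (((589824 : ℤ)) : R) = ((6 * (16 + 7 * u)) ^ 2 - 4 * (-3)) *
        ((6 * (16 - 7 * u)) ^ 2 - 4 * (-3)) := by
      push_cast
      linear_combination -(3111696 * (u ^ 2 + 5) - 32471712) * hu
    rw [h2, map_mul, h0, zero_mul]
  · rw [mul_pow, hu, hv]
    push_cast
    ring
  · rw [hab]
    push_cast
    ring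
  · rw [one_mul]
    have h1 : Odd (a ^ 2 + 15 * b ^ 2) := by
      rw [← hab, hm]
      exact ⟨m, by push_cast; ring⟩
    rcases Int.even_or_odd (a + b) with h2 | h2
    · exfalso
      obtain ⟨c, hc⟩ := h2
      have h3 : a = 2 * c - b := by linarith
      rw [h3] at h1
      have h4 : Even ((2 * c - b) ^ 2 + 15 * b ^ 2) :=
        ⟨2 * c ^ 2 - 2 * c * b + 8 * b ^ 2, by ring⟩
      exact (Int.not_odd_iff_even.2 h4) h1
    · exact h2
  · have h1 : q (6 * (16 + 7 * u)) = 6 * (16 + 7 * q u) := by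
      rw [map_mul, map_add, map_mul, map_ofNat, map_ofNat, map_ofNat]
    rw [h1]
    have h2 : frobenius k p (6 * (16 + 7 * q u)) = 6 * (16 + 7 * frobenius k p (q u)) := by
      rw [map_mul, map_add, map_mul, map_ofNat, map_ofNat, map_ofNat]
    rw [frobenius_def, frobenius_def, hqu] at h2
    exact h2
  · intro h0
    have h1 := (hiz 396).not.2 n1
    apply h1
    have h2 : (((396 : ℤ)) : R) = (6 * (16 + 7 * u)) * (6 * (16 - 7 * u)) := by
      push_cast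
      linear_combination (36 * 49) * hu
    rw [h2, map_mul, h0, zero_mul]

end Pool.Agent.helper60.DB
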