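import Pool.Agent.helper60.DB.SpecM

/-!
# Row bm:Q0 (MP_fb2c2a_nt): the parallelogram law on `ℤ²` gives a quadratic form
-/

namespace Pool.Agent.helper60.DB

theorem Q0_aff (f : ℤ → ℤ) (h : ∀ n, f (n + 1) + f (n - 1) = 2 * f n) (h0 : f 0 = 0)
    (h1 : f 1 = 0) (n : ℤ) : f n = 0 := by
  have key : ∀ n : ℤ, f n = 0 ∧ f (n + 1) = 0 := by
    intro n
    induction n using Int.induction_on with
    | zero => exact ⟨h0, by rw [zero_add]; exact h1⟩
    | succ k ih =>
      refine ⟨ih.2, ?_⟩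
      have := h ((k : ℤ) + 1)
      rw [add_sub_cancel_right, ih.1, ih.2] at this
      linarith
    | pred k ih =>
      have := h (-(k : ℤ))
      rw [ih.1, ih.2] at this
      refine ⟨by linarith, ?_⟩
      rw [sub_add_cancel]
      exact ih.1
  exact (key n).1

theorem Q0 : Q0_stmt := by
  intro H hH
  have h00 : H 0 0 = 0 := by
    have := hH 0 0 0 0
    simp only [add_zero, sub_zero] at this
    linarith
  have hG : ∀ a b : ℤ,
      H a b - (a ^ 2 * H 1 0 + a * b * (H 1 1 - H 1 0 - H 0 1) + b ^ 2 * H 0 1) = 0 := by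
    intro a b
    have h1 : ∀ a b : ℤ, H (a + 1) b + H (a - 1) b = 2 * H a b + 2 * H 1 0 := by
      intro a b
      have := hH a b 1 0
      rwa [add_zero, sub_zero] at this
    have h2 : ∀ a b : ℤ, H a (b + 1) + H a (b - 1) = 2 * H a b + 2 * H 0 1 := by
      intro a b
      have := hH a b 0 1
      rwa [add_zero, sub_zero] at this
    refine Q0_aff (fun a => H a b -
      (a ^ 2 * H 1 0 + a * b * (H 1 1 - H 1 0 - H 0 1) + b ^ 2 * H 0 1)) ?_ ?_ ?_ a
    · intro n
      have := h1 n b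
      show H (n + 1) b - _ + (H (n - 1) b - _) = 2 * (H n b - _)
      linear_combination this
    · refine Q0_aff (fun b => H 0 b -
        (0 ^ 2 * H 1 0 + 0 * b * (H 1 1 - H 1 0 - H 0 1) + b ^ 2 * H 0 1)) ?_ ?_ ?_ b
      · intro n
        have := h2 0 n
        show H 0 (n + 1) - _ + (H 0 (n - 1) - _) = 2 * (H 0 n - _)
        linear_combination this
      · show H 0 0 - (0 ^ 2 * H 1 0 + 0 * 0 * (H 1 1 - H 1 0 - H 0 1) + 0 ^ 2 * H 0 1) = 0
        rw [h00]
        ring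
      · show H 0 1 - (0 ^ 2 * H 1 0 + 0 * 1 * (H 1 1 - H 1 0 - H 0 1) + 1 ^ 2 * H 0 1) = 0
        ring
    · refine Q0_aff (fun b => H 1 b -
        (1 ^ 2 * H 1 0 + 1 * b * (H 1 1 - H 1 0 - H 0 1) + b ^ 2 * H 0 1)) ?_ ?_ ?_ b
      · intro n
        have := h2 1 n
        show H 1 (n + 1) - _ + (H 1 (n - 1) - _) = 2 * (H 1 n - _)
        linear_combination this
      · show H 1 0 - (1 ^ 2 * H 1 0 + 1 * 0 * (H 1 1 - H 1 0 - H 0 1) + 0 ^ 2 * H 0 1) = 0
        ring
      · show H 1 1 - (1 ^ 2 * H 1 0 + 1 * 1 * (H 1 1 - H 1 0 - H 0 1) + 1 ^ 2 * H 0 1) = 0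
        ring
  intro a b
  have := hG a b
  linarith

end Pool.Agent.helper60.DB
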